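import Mathlib

/-!
# Few powers of three without a zero digit in base four

For `3 ^ k` and `2 * 3 ^ k`, `k < N`, at most `54 N ^ (log 3 / log 4)` of the `k` are exceptions to the
statement that both numbers have a zero digit in base 4.

The numbers `3 ^ k`, `k < 4 ^ m`, are different modulo `4 ^ (m + 1)`, and a number without a zero digit is congruent
to one of the at most `3 ^ (m + 2) / 2` numbers below `4 ^ (m + 1)` without a zero digit.
-/

set_option autoImplicit false

namespace Pool.Agent.Results.MP_5a7e96_nt.FewExceptions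

open Finset

/-- all the digits below the leading one are different from zero -/
def NZ (n : ℕ) : Prop := ∀ i, 4 ^ i ≤ n → n / 4 ^ i % 4 ≠ 0

theorem nz_of_digits {n : ℕ} (h : 0 ∉ Nat.digits 4 n) : NZ n := by
  intro i hi h0
  apply h
  have hlen : i < (Nat.digits 4 n).length := (Nat.lt_digits_length_iff (by norm_num) n).2 hi
  have h1 := Nat.getD_digits n i (b := 4) (by norm_num)
  rw [h0, List.getD_eq_getElem _ _ hlen] at h1
  rw [← h1]
  exact List.getElem_mem hlen

theorem nz_mod {n : ℕ} (h : NZ n) (j : ℕ) : NZ (n % 4 ^ j) := by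
  intro i hi
  have hle : n % 4 ^ j ≤ n := Nat.mod_le _ _
  have hlt : n % 4 ^ j < 4 ^ j := Nat.mod_lt _ (by positivity)
  have hij : i < j := by
    by_contra hcon
    push Not at hcon
    have : 4 ^ j ≤ 4 ^ i := Nat.pow_le_pow_right (by norm_num) hcon
    omega
  obtain ⟨d, rfl⟩ : ∃ d, j = i + (d + 1) := ⟨j - i - 1, by omega⟩
  have e : n % 4 ^ (i + (d + 1)) / 4 ^ i % 4 = n / 4 ^ i % 4 := by
    rw [pow_add, Nat.mod_mul_right_div_self, Nat.mod_mod_of_dvd]
    exact dvd_pow_self 4 (by omega)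
  rw [e]
  exact h i (hi.trans hle)

theorem nz_div {n : ℕ} (h : NZ n) : NZ (n / 4) := by
  intro i hi
  have h1 : 4 ^ (i + 1) ≤ n := by
    rw [pow_succ]
    have := Nat.mul_le_of_le_div 4 (4 ^ i) n hi
    exact this
  have h2 := h (i + 1) h1
  rwa [pow_succ', ← Nat.div_div_eq_div_mul] at h2

open Classical in
theorem card_nz (j : ℕ) : 2 * ((range (4 ^ j)).filter NZ).card + 1 ≤ 3 ^ (j + 1) := by
  induction j with
  | zero =>
    have : ((range (4 ^ 0)).filter NZ).card ≤ 1 := (card_filter_le _ _).trans (by simp)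
    omega
  | succ j ih =>
    have hsub : (range (4 ^ (j + 1))).filter NZ ⊆
        insert 0 ((((range (4 ^ j)).filter NZ) ×ˢ (Icc 1 3)).image fun q : ℕ × ℕ => 4 * q.1 + q.2) := by
      intro r hr
      obtain ⟨hr1, hr2⟩ := mem_filter.1 hr
      rcases Nat.eq_zero_or_pos r with h0 | h0
      · rw [h0]; exact mem_insert_self _ _
      · apply mem_insert_of_mem
        refine mem_image.2 ⟨(r / 4, r % 4), mem_product.2 ⟨mem_filter.2 ⟨?_, nz_div hr2⟩, ?_⟩, ?_⟩
        · have := mem_range.1 hr1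
          rw [pow_succ] at this
          exact mem_range.2 (Nat.div_lt_of_lt_mul (by omega))
        · have h1 := hr2 0 (by rw [pow_zero]; exact h0)
          rw [pow_zero, Nat.div_one] at h1
          have h2 : r % 4 < 4 := Nat.mod_lt _ (by norm_num)
          simp only [mem_Icc]
          omega
        · simp only
          omega
    have h1 := card_le_card hsub
    have h2 := card_insert_le 0 ((((range (4 ^ j)).filter NZ) ×ˢ (Icc 1 3)).image
      fun q : ℕ × ℕ => 4 * q.1 + q.2)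
    have h3 : ((((range (4 ^ j)).filter NZ) ×ˢ (Icc 1 3)).image fun q : ℕ × ℕ => 4 * q.1 + q.2).card ≤
        ((range (4 ^ j)).filter NZ).card * 3 := by
      refine card_image_le.trans ?_
      rw [card_product]
      simp
    rw [pow_succ 3 (j + 1)]
    omega

theorem val_three {n j : ℕ} (hn : 0 < n) (h : 2 ^ (j + 2) ∣ 3 ^ n - 1) : 2 ^ j ≤ n := by
  rcases Nat.even_or_odd n with he | ho
  · have h1 := Nat.two_pow_sub_pow (x := 3) (y := 1) (by norm_num) (by norm_num) he
    have h2 : ((j + 2 : ℕ) : ℕ∞) ≤ emultiplicity 2 (3 ^ n - 1) := by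
      exact le_emultiplicity_of_pow_dvd h
    have h3 : emultiplicity 2 (3 + 1) = 2 := by
      rw [show 3 + 1 = 2 ^ 2 by norm_num]
      exact_mod_cast emultiplicity_pow_self_of_prime Nat.prime_two.prime 2
    have h4 : emultiplicity 2 (3 - 1) = 1 := by
      rw [show 3 - 1 = 2 ^ 1 by norm_num]
      exact_mod_cast emultiplicity_pow_self_of_prime Nat.prime_two.prime 1
    rw [one_pow, h3, h4] at h1
    have h5 : ((j : ℕ) : ℕ∞) ≤ emultiplicity 2 n := by
      have h6 : ((j + 2 : ℕ) : ℕ∞) + 1 ≤ 2 + 1 + emultiplicity 2 n := by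
        rw [← h1]; gcongr
      have h7 : ((j + 2 : ℕ) : ℕ∞) + 1 = (3 : ℕ∞) + j := by
        push_cast
        ring
      have h8 : (2 : ℕ∞) + 1 = 3 := by norm_num
      rw [h7, h8] at h6
      exact (ENat.add_le_add_iff_left (by simp)).1 h6
    have h6 : 2 ^ j ∣ n := pow_dvd_of_le_emultiplicity h5
    exact Nat.le_of_dvd hn h6
  · exfalso
    obtain ⟨k, rfl⟩ := ho
    have h1 : 4 ∣ 3 ^ (2 * k + 1) - 1 := by
      refine dvd_trans ?_ h
      rw [pow_add]
      exact Dvd.intro_left _ rfl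
    have h2 : 3 ^ (2 * k + 1) % 4 = 3 := by
      rw [pow_add, pow_mul, Nat.mul_mod, Nat.pow_mod]
      norm_num
    have h3 : 1 ≤ 3 ^ (2 * k + 1) := Nat.one_le_pow _ _ (by norm_num)
    omega

theorem inj {m k l : ℕ} (hkl : k < l) (hl : l < 4 ^ m) (h : 3 ^ k ≡ 3 ^ l [MOD 2 ^ (2 * m + 2)]) : False := by
  have h1 : 2 ^ (2 * m + 2) ∣ 3 ^ l - 3 ^ k :=
    (Nat.modEq_iff_dvd' (Nat.pow_le_pow_right (by norm_num) hkl.le)).1 h
  have h2 : 3 ^ l - 3 ^ k = 3 ^ k * (3 ^ (l - k) - 1) := by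
    rw [Nat.mul_sub, mul_one, ← pow_add]
    congr 2
    omega
  rw [h2] at h1
  have h3 : 2 ^ (2 * m + 2) ∣ 3 ^ (l - k) - 1 := by
    refine Nat.Coprime.dvd_of_dvd_mul_left ?_ h1
    exact Nat.Coprime.pow _ _ (by norm_num)
  have h4 := val_three (by omega) h3
  rw [pow_mul] at h4
  norm_num at h4
  omega

open Classical in
theorem count_one (m : ℕ) :
    2 * ((range (4 ^ m)).filter fun k => 0 ∉ Nat.digits 4 (3 ^ k)).card ≤ 3 ^ (m + 2) := by
  have h1 : ((range (4 ^ m)).filter fun k => 0 ∉ Nat.digits 4 (3 ^ k)).card ≤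
      ((range (4 ^ (m + 1))).filter NZ).card := by
    apply card_le_card_of_injOn (fun k => 3 ^ k % 4 ^ (m + 1))
    · intro k hk
      obtain ⟨-, hk2⟩ := mem_filter.1 hk
      exact mem_filter.2 ⟨mem_range.2 (Nat.mod_lt _ (by positivity)), nz_mod (nz_of_digits hk2) _⟩
    · intro k hk l hl he
      have hk1 := mem_range.1 (mem_filter.1 hk).1
      have hl1 := mem_range.1 (mem_filter.1 hl).1
      have e4 : 4 ^ (m + 1) = 2 ^ (2 * m + 2) := by
        rw [show 2 * m + 2 = 2 * (m + 1) by ring, pow_mul]; norm_num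
      have he' : 3 ^ k ≡ 3 ^ l [MOD 2 ^ (2 * m + 2)] := by
        rw [← e4]; exact he
      rcases lt_trichotomy k l with h | h | h
      · exact (inj h hl1 he').elim
      · exact h
      · exact (inj h hk1 he'.symm).elim
  have h2 := card_nz (m + 1)
  have e : 3 ^ (m + 1 + 1) = 3 ^ (m + 2) := rfl
  omega

open Classical in
theorem count_two (m : ℕ) :
    2 * ((range (4 ^ m)).filter fun k => 0 ∉ Nat.digits 4 (2 * 3 ^ k)).card ≤ 3 ^ (m + 3) := by
  have h1 : ((range (4 ^ m)).filter fun k => 0 ∉ Nat.digits 4 (2 * 3 ^ k)).card ≤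
      ((range (4 ^ (m + 2))).filter NZ).card := by
    apply card_le_card_of_injOn (fun k => (2 * 3 ^ k) % 4 ^ (m + 2))
    · intro k hk
      obtain ⟨-, hk2⟩ := mem_filter.1 hk
      exact mem_filter.2 ⟨mem_range.2 (Nat.mod_lt _ (by positivity)), nz_mod (nz_of_digits hk2) _⟩
    · intro k hk l hl he
      have hk1 := mem_range.1 (mem_filter.1 hk).1
      have hl1 := mem_range.1 (mem_filter.1 hl).1
      have he1 : 2 * 3 ^ k ≡ 2 * 3 ^ l [MOD 4 ^ (m + 2)] := he
      have e4 : 4 ^ (m + 2) = 2 * 2 ^ (2 * m + 3) := by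
        rw [← pow_succ', show 2 * m + 3 + 1 = 2 * (m + 2) by ring, pow_mul]; norm_num
      rw [e4] at he1
      have he2 : 3 ^ k ≡ 3 ^ l [MOD 2 ^ (2 * m + 3)] :=
        Nat.ModEq.mul_left_cancel' (by norm_num) he1
      have he' : 3 ^ k ≡ 3 ^ l [MOD 2 ^ (2 * m + 2)] :=
        he2.of_dvd (pow_dvd_pow 2 (by omega))
      rcases lt_trichotomy k l with h | h | h
      · exact (inj h hl1 he').elim
      · exact h
      · exact (inj h hk1 he'.symm).elim
  have h2 := card_nz (m + 2)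
  have e : 3 ^ (m + 2 + 1) = 3 ^ (m + 3) := rfl
  omega

/-- For every `N ≥ 1` at most `54 N ^ (log 3 / log 4)` numbers `k < N` are such that `3 ^ k` or `2 * 3 ^ k` has no
zero digit in base 4. -/
theorem result (N : ℕ) (hN : 1 ≤ N) :
    (({k : ℕ | k < N ∧ (0 ∉ Nat.digits 4 (3 ^ k) ∨ 0 ∉ Nat.digits 4 (2 * 3 ^ k))}.ncard : ℕ) : ℝ) ≤
      54 * (N : ℝ) ^ (Real.log 3 / Real.log 4) := by
  classical
  set m := Nat.clog 4 N with hm
  have hNm : N ≤ 4 ^ m := Nat.le_pow_clog (by norm_num) N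
  have hfin : {k : ℕ | k < N ∧ (0 ∉ Nat.digits 4 (3 ^ k) ∨ 0 ∉ Nat.digits 4 (2 * 3 ^ k))} ⊆
      (((range (4 ^ m)).filter fun k => 0 ∉ Nat.digits 4 (3 ^ k)) ∪
        ((range (4 ^ m)).filter fun k => 0 ∉ Nat.digits 4 (2 * 3 ^ k)) : Finset ℕ) := by
    rintro k ⟨hk, h | h⟩
    · exact mem_coe.2 (mem_union_left _ (mem_filter.2 ⟨mem_range.2 (by omega), h⟩))
    · exact mem_coe.2 (mem_union_right _ (mem_filter.2 ⟨mem_range.2 (by omega), h⟩))
  have h1 := Set.ncard_le_ncard hfin (Finset.finite_toSet _)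
  rw [Set.ncard_coe_finset] at h1
  have h2 := h1.trans (card_union_le _ _)
  have h3 := count_one m
  have h4 := count_two m
  have h5 : {k : ℕ | k < N ∧ (0 ∉ Nat.digits 4 (3 ^ k) ∨ 0 ∉ Nat.digits 4 (2 * 3 ^ k))}.ncard ≤
      18 * 3 ^ m := by
    rw [pow_add] at h3 h4
    omega
  have h6 : (3 : ℝ) ^ m ≤ 3 * (N : ℝ) ^ (Real.log 3 / Real.log 4) := by
    have hlog4 : 0 < Real.log 4 := Real.log_pos (by norm_num)
    have hlog3 : 0 < Real.log 3 := Real.log_pos (by norm_num)
    have e3 : (3 : ℝ) = (4 : ℝ) ^ (Real.log 3 / Real.log 4) := by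
      rw [Real.rpow_def_of_pos (by norm_num), mul_div_cancel₀ _ hlog4.ne', Real.exp_log (by norm_num)]
    rcases Nat.eq_zero_or_pos m with h0 | h0
    · rw [h0, pow_zero]
      have : (1 : ℝ) ≤ (N : ℝ) ^ (Real.log 3 / Real.log 4) :=
        Real.one_le_rpow (by exact_mod_cast hN) (by positivity)
      linarith
    · have h7 : 4 ^ (m - 1) < N := by
        apply Nat.pow_pred_clog_lt_self (by norm_num)
        by_contra hcon
        have : N = 1 := by omega
        rw [this] at hm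
        simp at hm
        omega
      have h8 : ((4 : ℝ) ^ (m - 1)) ≤ N := by exact_mod_cast h7.le
      have h9 : (3 : ℝ) ^ (m - 1) ≤ (N : ℝ) ^ (Real.log 3 / Real.log 4) := by
        calc (3 : ℝ) ^ (m - 1) = ((4 : ℝ) ^ (Real.log 3 / Real.log 4)) ^ (m - 1) := by rw [← e3]
          _ = ((4 : ℝ) ^ (m - 1)) ^ (Real.log 3 / Real.log 4) := by
              rw [← Real.rpow_natCast, ← Real.rpow_natCast, ← Real.rpow_mul (by norm_num),
                ← Real.rpow_mul (by norm_num), mul_comm]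
          _ ≤ _ := Real.rpow_le_rpow (by positivity) h8 (by positivity)
      have h10 : (3 : ℝ) ^ m = 3 * 3 ^ (m - 1) := by
        rw [← pow_succ']
        congr 1
        omega
      rw [h10]
      linarith
  have h7 : (({k : ℕ | k < N ∧ (0 ∉ Nat.digits 4 (3 ^ k) ∨ 0 ∉ Nat.digits 4 (2 * 3 ^ k))}.ncard : ℕ) : ℝ) ≤
      18 * 3 ^ m := by exact_mod_cast h5
  linarith

end Pool.Agent.Results.MP_5a7e96_nt.FewExceptions
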